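import Pool.Agent.Lib.MP_688fd0_co.SQ6.Iface

/-!
Row COVER of board B1*.
-/

set_option autoImplicit false

namespace Pool.Agent.Lib.MP_688fd0_co.SQ6.H39

open Pool.Agent.Lib.MP_688fd0_co.SQ6

variable {H : Type} [Group H]

theorem mv_mono {V : Set H} {n m : ℕ} (h : n ≤ m) {f : Equiv.Perm H} (hf : Mv V n f) : Mv V m f := by
  obtain ⟨l, hl, h1, h2⟩ := hf
  exact ⟨l, hl.trans h, h1, h2⟩

theorem mv_mul {V : Set H} {n m : ℕ} {f g : Equiv.Perm H} (hf : Mv V n f) (hg : Mv V m g) :
    Mv V (n + m) (f * g) := by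
  obtain ⟨l, hl, h1, h2⟩ := hf
  obtain ⟨l', hl', h1', h2'⟩ := hg
  refine ⟨l ++ l', ?_, ?_, ?_⟩
  · rw [List.length_append]; omega
  · intro x hx
    rcases List.mem_append.1 hx with hx | hx
    · exact h1 x hx
    · exact h1' x hx
  · rw [List.prod_append, h2, h2']

theorem tri_mono {V : Set H} {n m : ℕ} (h : n ≤ m) {I : Subgroup H} {a b c : H} (hf : Tri V n I a b c) :
    Tri V m I a b c := by
  obtain ⟨f, h1, h2, h3⟩ := hf
  exact ⟨f, h1, mv_mono h h2, mv_mono h h3⟩

theorem inv_mem {I : Subgroup H} {a b : H} (h : a⁻¹ * b ∈ I) : b⁻¹ * a ∈ I := by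
  have := I.inv_mem h
  simpa [mul_inv_rev] using this

theorem isTri_rot {I : Subgroup H} {a b c : H} {f : Equiv.Perm H} (h : IsTri I a b c f) : IsTri I b c a f where
  ab := h.bc
  bc := h.ca
  ca := h.ab
  fa := h.fb
  fb := h.fc
  fc := h.fa
  fx := fun x h1 h2 h3 => h.fx x h3 h1 h2

theorem isTri_inv {I : Subgroup H} {a b c : H} {f : Equiv.Perm H} (h : IsTri I a b c f) : IsTri I a c b f⁻¹ where
  ab := fun hh => h.ca (inv_mem hh)
  bc := fun hh => h.bc (inv_mem hh)
  ca := fun hh => h.ab (inv_mem hh)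
  fa := fun j hj => by
    rw [Equiv.Perm.inv_eq_iff_eq]
    exact (h.fc j hj).symm
  fb := fun j hj => by
    rw [Equiv.Perm.inv_eq_iff_eq]
    exact (h.fb j hj).symm
  fc := fun j hj => by
    rw [Equiv.Perm.inv_eq_iff_eq]
    exact (h.fa j hj).symm
  fx := fun x h1 h2 h3 => by
    rw [Equiv.Perm.inv_eq_iff_eq]
    exact (h.fx x h1 h3 h2).symm

theorem isTri_mulr {I : Subgroup H} {a b c : H} {f : Equiv.Perm H} (h : IsTri I a b c f) :
    ∀ x, ∀ j ∈ I, f (x * j) = f x * j := by
  intro x j hj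
  by_cases ha : a⁻¹ * x ∈ I
  · have e : x = a * (a⁻¹ * x) := by group
    rw [e, mul_assoc, h.fa _ (I.mul_mem ha hj), h.fa _ ha]
    simp only [mul_assoc]
  by_cases hb : b⁻¹ * x ∈ I
  · have e : x = b * (b⁻¹ * x) := by group
    rw [e, mul_assoc, h.fb _ (I.mul_mem hb hj), h.fb _ hb]
    simp only [mul_assoc]
  by_cases hc : c⁻¹ * x ∈ I
  · have e : x = c * (c⁻¹ * x) := by group
    rw [e, mul_assoc, h.fc _ (I.mul_mem hc hj), h.fc _ hc]
    simp only [mul_assoc]
  rw [h.fx x ha hb hc, h.fx]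
  · intro hh
    apply ha
    have := I.mul_mem hh (I.inv_mem hj)
    simpa [mul_assoc] using this
  · intro hh
    apply hb
    have := I.mul_mem hh (I.inv_mem hj)
    simpa [mul_assoc] using this
  · intro hh
    apply hc
    have := I.mul_mem hh (I.inv_mem hj)
    simpa [mul_assoc] using this

theorem isTri_supp {I : Subgroup H} {a b c : H} {f : Equiv.Perm H} (h : IsTri I a b c f) (x : H) (hx : f x ≠ x) :
    a⁻¹ * x ∈ I ∨ b⁻¹ * x ∈ I ∨ c⁻¹ * x ∈ I := by
  by_contra hh
  push Not at hh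
  exact hx (h.fx x hh.1 hh.2.1 hh.2.2)

theorem isTri_a {I : Subgroup H} {a b c : H} {f : Equiv.Perm H} (h : IsTri I a b c f) : f a = b := by
  have := h.fa 1 I.one_mem
  simpa using this

theorem tri_rot {V : Set H} {n : ℕ} {I : Subgroup H} {a b c : H} (h : Tri V n I a b c) : Tri V n I b c a := by
  obtain ⟨f, h1, h2, h3⟩ := h
  exact ⟨f, isTri_rot h1, h2, h3⟩

theorem tri_inv {V : Set H} {n : ℕ} {I : Subgroup H} {a b c : H} (h : Tri V n I a b c) : Tri V n I a c b := by
  obtain ⟨f, h1, h2, h3⟩ := h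
  refine ⟨f⁻¹, isTri_inv h1, h3, ?_⟩
  rw [inv_inv]
  exact h2

/-- two cycles with exactly one common block -/
theorem tri_comm (hC : CommS) {V : Set H} {n : ℕ} {I : Subgroup H} {a b c d e : H} (h : Tri V n I a b c)
    (h' : Tri V n I a d e) (hbd : b⁻¹ * d ∉ I) (hbe : b⁻¹ * e ∉ I) (hcd : c⁻¹ * d ∉ I) (hce : c⁻¹ * e ∉ I) :
    Tri V (4 * n) I a b d := by
  obtain ⟨f, h1, h2, h3⟩ := h
  obtain ⟨g, g1, g2, g3⟩ := h'
  have key : ∀ x y z : H, x⁻¹ * z ∈ I → y⁻¹ * z ∈ I → x⁻¹ * y ∈ I := by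
    intro x y z hx hy
    have := I.mul_mem hx (inv_mem hy)
    simpa [mul_assoc] using this
  have hc := hC H I f g a (isTri_mulr h1) (isTri_mulr g1) (by
      intro x hx hx'
      rcases isTri_supp h1 x hx with k | k | k
      · exact k
      · rcases isTri_supp g1 x hx' with k' | k' | k'
        · exact k'
        · exact absurd (key b d x k k') hbd
        · exact absurd (key b e x k k') hbe
      · rcases isTri_supp g1 x hx' with k' | k' | k'
        · exact k'
        · exact absurd (key c d x k k') hcd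
        · exact absurd (key c e x k k') hce)
    (by rw [isTri_a h1]; exact h1.ab) (by rw [isTri_a g1]; exact g1.ab)
  rw [isTri_a h1, isTri_a g1] at hc
  refine ⟨_, hc, ?_, ?_⟩
  · have := mv_mul (mv_mul (mv_mul h2 g2) h3) g3
    exact mv_mono (by omega) this
  · have e : (f * g * f⁻¹ * g⁻¹)⁻¹ = g * f * g⁻¹ * f⁻¹ := by group
    rw [e]
    have := mv_mul (mv_mul (mv_mul g2 h2) g3) h3
    exact mv_mono (by omega) this

/-- LOC for two arbitrary indices -/
theorem loc_two (hL : LocS) [Finite H] {V : Set H} {ν m : ℕ} (w : Fin (m + 2) → H) (hw : ∀ i, w i ∈ V)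
    (ho : ∀ i, orderOf (w i) ≤ ν) (hi : ∀ p, w p ∉ Subgroup.closure (w '' {q | q ≠ p}))
    (p q : Fin (m + 2)) (hpq : p ≠ q) (a : H) :
    Tri V (2 ^ (m + 2) * ν) (⨅ q, Subgroup.zpowers (w q)) a (a * w p) (a * w q) := by
  set σ : Equiv.Perm (Fin (m + 2)) := Equiv.swap q (Fin.last (m + 1)) with hσ
  have e1 : σ (Fin.last (m + 1)) = q := by rw [hσ]; exact Equiv.swap_apply_right _ _
  have e2 : σ q = Fin.last (m + 1) := by rw [hσ]; exact Equiv.swap_apply_left _ _
  have hp : σ p ≠ Fin.last (m + 1) := by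
    intro h
    apply hpq
    apply σ.injective
    rw [h, e2]
  have e3 : σ (σ p) = p := by rw [hσ]; exact Equiv.swap_apply_self _ _ _
  have := hL H V ν m (fun i => w (σ i)) (fun i => hw _) (fun i => ho _) (by
    intro i hh
    apply hi (σ i)
    have : (fun i => w (σ i)) '' {q | q ≠ i} = w '' {q | q ≠ σ i} := by
      ext x
      constructor
      · rintro ⟨j, hj, rfl⟩
        exact ⟨σ j, fun h => hj (σ.injective h), rfl⟩
      · rintro ⟨j, hj, rfl⟩
        refine ⟨σ.symm j, fun h => hj ?_, ?_⟩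
        · rw [← h, Equiv.apply_symm_apply]
        · show w (σ (σ.symm j)) = w j
          rw [Equiv.apply_symm_apply]
    rw [this] at hh
    exact hh) (σ p) hp a
  simp only [e1, e3] at this
  have e4 : (⨅ q, Subgroup.zpowers (w (σ q))) = ⨅ q, Subgroup.zpowers (w q) :=
    Equiv.iInf_comp (g := fun q => Subgroup.zpowers (w q)) σ
  rw [e4] at this
  exact this

/-- the stabiliser of a set under right multiplication -/
def stab (S : Set H) : Subgroup H where
  carrier := {g | ∀ x, x * g ∈ S ↔ x ∈ S}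
  mul_mem' := by
    intro a b ha hb x
    rw [← mul_assoc, hb, ha]
  one_mem' := by intro x; simp
  inv_mem' := by
    intro a ha x
    have := ha (x * a⁻¹)
    simpa using this.symm

theorem mem_stab_of [Finite H] {S : Set H} {g : H} (h : ∀ x ∈ S, x * g ∈ S) : g ∈ stab S := by
  intro x
  constructor
  · intro hx
    have hp : ∀ n : ℕ, ∀ y ∈ S, y * g ^ n ∈ S := by
      intro n
      induction n with
      | zero => intro y hy; simpa using hy
      | succ k ih =>
        intro y hy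
        rw [pow_succ, ← mul_assoc]
        exact h _ (ih y hy)
    have h1 : g⁻¹ ∈ Submonoid.powers g := by
      rw [mem_powers_iff_mem_zpowers]
      exact (Subgroup.zpowers g).inv_mem (Subgroup.mem_zpowers g)
    obtain ⟨n, hn⟩ := h1
    have h2 := hp n _ hx
    simp only at hn
    rw [hn] at h2
    simpa using h2
  · intro hx
    exact h x hx

/-- growth of a full set -/
theorem grow_all (hG : GrowS) [Finite H] [DecidableEq H] {V : Set H} {C I : Subgroup H} (hCI : (C ⊔ I).Normal) {m : ℕ}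
    (w : Fin (m + 2) → H) {n₀ : ℕ} (hgen : Subgroup.closure (Set.range w) ⊔ C = ⊤)
    (hT : ∀ p q, p ≠ q → ∀ a, Tri V n₀ I a (a * w p) (a * w q)) :
    ∀ (k N : ℕ) (Y : Finset H), n₀ ≤ N → Full V N I Y → 4 ≤ Y.card →
      (C ⊔ I).index ≤ ((fun x : H => (QuotientGroup.mk x : H ⧸ (C ⊔ I))) '' (Y : Set H)).ncard + k →
      ∃ Y' : Finset H, Full V (8 ^ k * N) I Y' ∧ ∀ x : H, ∃ y ∈ Y', y⁻¹ * x ∈ C ⊔ I := by
  intro k
  induction k with
  | zero =>
    intro N Y hN hF hY hk
    refine ⟨Y, by simpa using hF, ?_⟩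
    have h1 : (fun x : H => (QuotientGroup.mk x : H ⧸ (C ⊔ I))) '' (Y : Set H) = Set.univ := by
      apply Set.eq_univ_of_univ_subset
      have : ((fun x : H => (QuotientGroup.mk x : H ⧸ (C ⊔ I))) '' (Y : Set H)) = Set.univ := by
        apply Set.eq_of_subset_of_ncard_le (Set.subset_univ _)
        rw [Set.ncard_univ]
        simpa [Subgroup.index] using hk
      rw [this]
    intro x
    have hx : (QuotientGroup.mk x : H ⧸ (C ⊔ I)) ∈ (fun x : H => (QuotientGroup.mk x : H ⧸ (C ⊔ I))) '' (Y : Set H) := by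
      rw [h1]; trivial
    obtain ⟨y, hy, hyx⟩ := hx
    exact ⟨y, hy, QuotientGroup.eq.1 hyx⟩
  | succ k ih =>
    intro N Y hN hF hY hk
    by_cases hcov : ∀ x : H, ∃ y ∈ Y, y⁻¹ * x ∈ C ⊔ I
    · refine ⟨Y, ?_, hcov⟩
      refine ⟨hF.1, fun x hx y hy z hz h1 h2 h3 => tri_mono ?_ (hF.2 x hx y hy z hz h1 h2 h3)⟩
      exact Nat.le_mul_of_pos_left _ (by positivity)
    · -- a new coset
      set S : Set H := {x | ∃ y ∈ Y, y⁻¹ * x ∈ C ⊔ I} with hS
      have hex : ∃ y ∈ Y, ∃ i, y * w i ∉ S := by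
        by_contra hno
        push Not at hno
        apply hcov
        have hD : ∀ d ∈ C ⊔ I, ∀ x ∈ S, x * d ∈ S := by
          rintro d hd x ⟨y, hy, hyx⟩
          refine ⟨y, hy, ?_⟩
          rw [← mul_assoc]
          exact (C ⊔ I).mul_mem hyx hd
        have hW : ∀ i, ∀ x ∈ S, x * w i ∈ S := by
          rintro i x ⟨y, hy, hyx⟩
          have h2 := hno y hy i
          have h3 := hCI.conj_mem _ hyx (w i)⁻¹
          have h4 := hD _ h3 _ h2
          have e : y * w i * ((w i)⁻¹ * (y⁻¹ * x) * (w i)⁻¹⁻¹) = x * w i := by group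
          rw [e] at h4
          exact h4
        have hle : Subgroup.closure (Set.range w) ⊔ C ≤ stab S := by
          apply sup_le
          · rw [Subgroup.closure_le]
            rintro _ ⟨i, rfl⟩
            exact mem_stab_of (hW i)
          · intro c hc
            exact mem_stab_of (hD c (Subgroup.mem_sup_left hc))
        rw [hgen] at hle
        have hne : Y.Nonempty := by
          rw [← Finset.card_pos]; omega
        obtain ⟨y, hy⟩ := hne
        have hyS : y ∈ S := ⟨y, hy, by simp⟩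
        intro x
        have := (hle (Subgroup.mem_top (y⁻¹ * x))) y
        have h5 := this.2 hyS
        have e : y * (y⁻¹ * x) = x := by group
        rw [e] at h5
        exact h5
      obtain ⟨y, hy, i, hi⟩ := hex
      obtain ⟨j, hj⟩ : ∃ j : Fin (m + 2), i ≠ j := by
        obtain ⟨j, hj⟩ := exists_ne i
        exact ⟨j, hj.symm⟩
      have hb : ∀ y' ∈ Y, y'⁻¹ * (y * w i) ∉ I := by
        intro y' hy' hh
        exact hi ⟨y', hy', Subgroup.mem_sup_right hh⟩
      have hF2 := hG H V N I Y hF hY y hy (y * w i) (y * w j) (tri_mono hN (hT i j hj y)) hb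
      obtain ⟨Y', hY1, hY2⟩ := ih (8 * N) (insert (y * w i) Y) (by omega) hF2
        (hY.trans (Finset.card_le_card (Finset.subset_insert _ _))) (by
          rw [Finset.coe_insert, Set.image_insert_eq, Set.ncard_insert_of_notMem]
          · omega
          · rintro ⟨y', hy', hh⟩
            exact hi ⟨y', hy', QuotientGroup.eq.1 hh⟩)
      refine ⟨Y', ?_, hY2⟩
      have e : 8 ^ k * (8 * N) = 8 ^ (k + 1) * N := by ring
      rw [e] at hY1
      exact hY1

omit [Group H] in
theorem card_four [DecidableEq H] {a b c d : H} (h1 : a ≠ b) (h2 : a ≠ c) (h3 : a ≠ d) (h4 : b ≠ c) (h5 : b ≠ d)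
    (h6 : c ≠ d) : 4 ≤ ({a, b, c, d} : Finset H).card := by
  rw [Finset.card_insert_of_notMem, Finset.card_insert_of_notMem, Finset.card_insert_of_notMem,
    Finset.card_singleton]
  · simpa using h6
  · simp [h4, h5]
  · simp [h1, h2, h3]

theorem ne_of_notMem {I : Subgroup H} {a b : H} (h : a⁻¹ * b ∉ I) : a ≠ b := by
  rintro rfl
  apply h
  simp

/-- a full set with four elements, two letters -/
theorem start_two (hC : CommS) (hQ : QuadS) [DecidableEq H] {V : Set H} {n₀ : ℕ} {I : Subgroup H} {u v : H}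
    (hIu : I ≤ Subgroup.zpowers u) (hIv : I ≤ Subgroup.zpowers v) (huv : u ∉ Subgroup.zpowers v)
    (hvu : v ∉ Subgroup.zpowers u) (hT : ∀ a, Tri V n₀ I a (a * u) (a * v)) (hu2 : u ^ 2 ∉ Subgroup.zpowers v) :
    ∃ Y : Finset H, Full V (12 * n₀) I Y ∧ 4 ≤ Y.card := by
  have hu0 : u ∈ Subgroup.zpowers u := Subgroup.mem_zpowers u
  have hv0 : v ∈ Subgroup.zpowers v := Subgroup.mem_zpowers v
  have hvI : v ∉ I := fun h => hvu (hIu h)
  have huI : u ∉ I := fun h => huv (hIv h)
  -- the cycle at u : blocks u, u^2, uv, and the cycle at 1 : blocks 1, u, v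
  have t1 : Tri V n₀ I 1 u v := by simpa using hT 1
  have t2 : Tri V n₀ I u (u * u) (u * v) := hT u
  have n1 : (1 : H)⁻¹ * (u * u) ∉ I := by
    intro h
    apply hu2
    have := hIv h
    simpa [pow_two] using this
  have n2 : (1 : H)⁻¹ * (u * v) ∉ I := by
    intro h
    have h1 := hIu h
    apply hvu
    have h2 := (Subgroup.zpowers u).mul_mem ((Subgroup.zpowers u).inv_mem hu0) h1
    simpa using h2
  have n3 : v⁻¹ * (u * u) ∉ I := by
    intro h
    have h1 := hIu h
    apply hvu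
    have h2 := (Subgroup.zpowers u).mul_mem ((Subgroup.zpowers u).mul_mem hu0 hu0) ((Subgroup.zpowers u).inv_mem h1)
    have e : u * u * (v⁻¹ * (u * u))⁻¹ = v := by group
    rw [e] at h2
    exact h2
  have n4 : v⁻¹ * (u * v) ∉ I := by
    intro h
    have h1 := hIv h
    apply huv
    have h2 := (Subgroup.zpowers v).mul_mem ((Subgroup.zpowers v).mul_mem hv0 h1) ((Subgroup.zpowers v).inv_mem hv0)
    have e : v * (v⁻¹ * (u * v)) * v⁻¹ = u := by group
    rw [e] at h2
    exact h2
  -- f : u -> v -> 1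
  have t1' : Tri V n₀ I u v 1 := tri_rot t1
  have t1'' : Tri V n₀ I u 1 v := tri_inv t1'
  have c1 : Tri V (4 * n₀) I u 1 (u * u) := tri_comm hC t1'' t2 n1 n2 n3 n4
  have c2 : Tri V (4 * n₀) I u v (u * u) := tri_comm hC t1' t2 n3 n4 n1 n2
  have n5 : (1 : H)⁻¹ * v ∉ I := by simpa using hvI
  have := hQ H V (4 * n₀) I u 1 v (u * u) c1 c2 n5
  refine ⟨{u, 1, v, u * u}, ?_, ?_⟩
  · have e : 3 * (4 * n₀) = 12 * n₀ := by ring
    rw [e] at this
    exact this
  · obtain ⟨f, hf, -⟩ := c1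
    obtain ⟨g, hg, -⟩ := c2
    exact card_four (ne_of_notMem hf.ab) (ne_of_notMem hg.ab) (ne_of_notMem hf.ca).symm (ne_of_notMem n5)
      (ne_of_notMem hf.bc) (ne_of_notMem hg.bc)

theorem full_mono {V : Set H} {n m : ℕ} (h : n ≤ m) {I : Subgroup H} {Y : Finset H} (hF : Full V n I Y) :
    Full V m I Y :=
  ⟨hF.1, fun x hx y hy z hz h1 h2 h3 => tri_mono h (hF.2 x hx y hy z hz h1 h2 h3)⟩

theorem cover_proof (hC : CommS) (hL : LocS) (hQ : QuadS) (hG : GrowS) : CoverS := by
  intro H _ _ V C hV hCn hcop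
  classical
  -- a shortest generating tuple modulo C
  have hex : ∃ n : ℕ, ∃ w : Fin n → H, (∀ i, w i ∈ V) ∧ Subgroup.closure (Set.range w) ⊔ C = ⊤ := by
    have hfin : V.Finite := Set.toFinite V
    have : Finite V := hfin
    obtain ⟨n, ⟨e⟩⟩ := Finite.exists_equiv_fin V
    refine ⟨n, fun i => (e.symm i : H), fun i => (e.symm i).2, ?_⟩
    have : Set.range (fun i => (e.symm i : H)) = V := by
      ext x
      constructor
      · rintro ⟨i, rfl⟩
        exact (e.symm i).2
      · intro hx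
        exact ⟨e ⟨x, hx⟩, by simp⟩
    rw [this, hV]
    simp
  obtain ⟨n, ⟨w, hwV, hw⟩, hmin⟩ : ∃ n : ℕ, (∃ w : Fin n → H, (∀ i, w i ∈ V) ∧
      Subgroup.closure (Set.range w) ⊔ C = ⊤) ∧ ∀ k < n, ¬ ∃ w : Fin k → H, (∀ i, w i ∈ V) ∧
      Subgroup.closure (Set.range w) ⊔ C = ⊤ :=
    ⟨Nat.find hex, Nat.find_spec hex, fun k hk => Nat.find_min hex hk⟩
  have hord : ∀ v ∈ V, orderOf v ≤ C.index := by
    intro v hv
    have h1 : v ^ C.index ∈ C := Subgroup.pow_index_mem C v
    have h2 : orderOf (v ^ C.index) ∣ Nat.card C := by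
      have := orderOf_dvd_natCard (⟨v ^ C.index, h1⟩ : C)
      rwa [Subgroup.orderOf_mk] at this
    have h3 : orderOf (v ^ C.index) ∣ orderOf v := orderOf_pow_dvd _
    have h4 : orderOf (v ^ C.index) = 1 := Nat.dvd_one.1 ((hcop v hv) ▸ Nat.dvd_gcd h3 h2)
    have h5 : v ^ C.index = 1 := orderOf_eq_one_iff.1 h4
    exact Nat.le_of_dvd (Nat.pos_of_ne_zero Subgroup.index_ne_zero_of_finite) (orderOf_dvd_of_pow_eq_one h5)
  rcases n with _ | n
  · left
    have : Set.range w = ∅ := Set.range_eq_empty w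
    rw [this, Subgroup.closure_empty, bot_sup_eq] at hw
    exact hw
  rcases n with _ | m
  · right; left
    refine ⟨w 0, hwV 0, ?_⟩
    have : Set.range w = {w 0} := by
      ext x
      constructor
      · rintro ⟨i, rfl⟩
        have hi : i = 0 := Fin.ext (by omega)
        rw [hi]
        rfl
      · rintro rfl
        exact ⟨0, rfl⟩
    rw [this] at hw
    rw [Subgroup.zpowers_eq_closure]
    exact hw
  right; right
  -- irredundancy
  have hirr : ∀ p : Fin (m + 2), w p ∉ Subgroup.closure (w '' {q | q ≠ p}) ⊔ C := by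
    intro p hp
    apply hmin (m + 1) (by omega)
    refine ⟨fun i => w (p.succAbove i), fun i => hwV _, ?_⟩
    have e : Set.range (fun i => w (p.succAbove i)) = w '' {q | q ≠ p} := by
      have : (fun i => w (p.succAbove i)) = w ∘ p.succAbove := rfl
      rw [this, Set.range_comp, Fin.range_succAbove]
      rfl
    rw [e, eq_top_iff, ← hw]
    apply sup_le _ le_sup_right
    rw [Subgroup.closure_le]
    rintro _ ⟨i, rfl⟩
    by_cases hi : i = p
    · rw [hi]; exact hp
    · exact Subgroup.mem_sup_left (Subgroup.subset_closure ⟨i, hi, rfl⟩)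
  have hirr' : ∀ p, w p ∉ Subgroup.closure (w '' {q | q ≠ p}) := fun p hp => hirr p (Subgroup.mem_sup_left hp)
  have hpq : ∀ p q, p ≠ q → w p ∉ Subgroup.zpowers (w q) ⊔ C := by
    intro p q hne hh
    apply hirr p
    refine (sup_le_sup_right ?_ C) hh
    rw [Subgroup.zpowers_le]
    exact Subgroup.subset_closure ⟨q, hne.symm, rfl⟩
  have hpq' : ∀ p q, p ≠ q → w p ∉ Subgroup.zpowers (w q) := fun p q hne hh =>
    hpq p q hne (Subgroup.mem_sup_left hh)
  set I : Subgroup H := ⨅ q, Subgroup.zpowers (w q) with hI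
  set ν := C.index with hν
  have hIw : ∀ q, I ≤ Subgroup.zpowers (w q) := fun q => iInf_le _ q
  have hT : ∀ p q, p ≠ q → ∀ a, Tri V (2 ^ (m + 2) * ν) I a (a * w p) (a * w q) := fun p q hne a =>
    loc_two hL w hwV (fun i => hord _ (hwV i)) hirr' p q hne a
  -- normality
  have hcen : ∀ i ∈ I, ∀ q, w q * i = i * w q := by
    intro i hi q
    obtain ⟨k, hk⟩ := Subgroup.mem_zpowers_iff.1 (hIw q hi)
    rw [← hk]
    exact (Commute.refl (w q)).zpow_right k
  have hN : (C ⊔ I).Normal := by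
    have key : ∀ y, (∀ i, i ∈ I → y * i * y⁻¹ ∈ I) → ∀ z, z ∈ C ⊔ I → y * z * y⁻¹ ∈ C ⊔ I := by
      intro y hy z hz
      rw [Subgroup.mem_sup_of_normal_left] at hz
      obtain ⟨c, hc, i, hi, rfl⟩ := hz
      have e : y * (c * i) * y⁻¹ = (y * c * y⁻¹) * (y * i * y⁻¹) := by group
      rw [e]
      exact (C ⊔ I).mul_mem (Subgroup.mem_sup_left (hCn.conj_mem c hc y)) (Subgroup.mem_sup_right (hy i hi))
    have hle : ∀ g ∈ Subgroup.closure (Set.range w ∪ C), (∀ z ∈ C ⊔ I, g * z * g⁻¹ ∈ C ⊔ I) ∧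
        ∀ z ∈ C ⊔ I, g⁻¹ * z * g ∈ C ⊔ I := by
      intro g hg
      induction hg using Subgroup.closure_induction with
      | mem x hx =>
        rcases hx with ⟨q, rfl⟩ | hx
        · refine ⟨key _ ?_, fun z hz => ?_⟩
          · intro i hi
            rw [hcen i hi q, mul_inv_cancel_right]
            exact hi
          · have := key (w q)⁻¹ (fun i hi => by
              have e : (w q)⁻¹ * i * (w q)⁻¹⁻¹ = (w q)⁻¹ * (i * w q) := by group
              rw [e, ← hcen i hi q, inv_mul_cancel_left]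
              exact hi) z hz
            rw [inv_inv] at this
            exact this
        · have hx' : x ∈ C ⊔ I := Subgroup.mem_sup_left hx
          exact ⟨fun z hz => (C ⊔ I).mul_mem ((C ⊔ I).mul_mem hx' hz) ((C ⊔ I).inv_mem hx'),
            fun z hz => (C ⊔ I).mul_mem ((C ⊔ I).mul_mem ((C ⊔ I).inv_mem hx') hz) hx'⟩
      | one => exact ⟨fun z hz => by simpa using hz, fun z hz => by simpa using hz⟩
      | mul x y _ _ hx hy =>
        refine ⟨fun z hz => ?_, fun z hz => ?_⟩
        · have := hx.1 _ (hy.1 z hz)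
          have e : x * (y * z * y⁻¹) * x⁻¹ = x * y * z * (x * y)⁻¹ := by group
          rw [← e]
          exact this
        · have := hy.2 _ (hx.2 z hz)
          have e : y⁻¹ * (x⁻¹ * z * x) * y = (x * y)⁻¹ * z * (x * y) := by group
          rw [← e]
          exact this
      | inv x _ hx =>
        refine ⟨fun z hz => ?_, fun z hz => ?_⟩
        · rw [inv_inv]
          exact hx.2 z hz
        · rw [inv_inv]
          exact hx.1 z hz
    have htop : Subgroup.closure (Set.range w ∪ C) = ⊤ := by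
      rw [Subgroup.closure_union, Subgroup.closure_eq]
      exact hw
    refine ⟨fun z hz g => (hle g ?_).1 z hz⟩
    rw [htop]
    exact Subgroup.mem_top g
  -- the number of letters
  have hmν : m + 2 ≤ ν := by
    have hinj : Function.Injective (fun i => (QuotientGroup.mk (w i) : H ⧸ C)) := by
      intro p q hh
      by_contra hne
      have h1 : (w q)⁻¹ * w p ∈ C := QuotientGroup.eq.1 (Eq.symm hh)
      apply hpq p q hne
      have h2 : w p = w q * ((w q)⁻¹ * w p) := by group
      rw [h2]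
      exact Subgroup.mul_mem _ (Subgroup.mem_sup_left (Subgroup.mem_zpowers _)) (Subgroup.mem_sup_right h1)
    have := Nat.card_le_card_of_injective _ hinj
    rw [Nat.card_fin] at this
    exact this
  -- end of the proof, given a start
  have hend : (∃ Y : Finset H, Full V (12 * (2 ^ (m + 2) * ν)) I Y ∧ 4 ≤ Y.card) →
      ∃ (I : Subgroup H) (Y : Finset H) (v : H), v ∈ V ∧ I ≤ Subgroup.zpowers v ∧ (C ⊔ I).Normal ∧
      Full V (2 ^ (40 * (C.index + 2))) I Y ∧ ∀ x : H, ∃ y ∈ Y, y⁻¹ * x ∈ C ⊔ I := by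
    rintro ⟨Y, hF, hY⟩
    have hidx : (C ⊔ I).index ≤ ν := Nat.le_of_dvd (Nat.pos_of_ne_zero Subgroup.index_ne_zero_of_finite)
      (Subgroup.index_dvd_of_le le_sup_left)
    obtain ⟨Y', hF', hY'⟩ := grow_all hG hN w hw hT ν (12 * (2 ^ (m + 2) * ν)) Y (by omega) hF hY
      (by omega)
    refine ⟨I, Y', w 0, hwV 0, hIw 0, hN, full_mono ?_ hF', hY'⟩
    rw [← hν]
    have h1 : ν < 2 ^ ν := Nat.lt_two_pow_self
    have h2 : 2 ^ (m + 2) ≤ 2 ^ ν := Nat.pow_le_pow_right (by norm_num) hmν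
    calc 8 ^ ν * (12 * (2 ^ (m + 2) * ν)) ≤ 8 ^ ν * (2 ^ 4 * (2 ^ ν * 2 ^ ν)) := by
          apply Nat.mul_le_mul_left
          apply Nat.mul_le_mul (by norm_num)
          exact Nat.mul_le_mul h2 h1.le
      _ = 2 ^ (5 * ν + 4) := by
          rw [show (8 : ℕ) = 2 ^ 3 by norm_num, ← pow_mul, ← pow_add, ← pow_add, ← pow_add]
          congr 1
          ring
      _ ≤ 2 ^ (40 * (ν + 2)) := Nat.pow_le_pow_right (by norm_num) (by omega)
  rcases m with _ | m
  · -- two letters
    have h01 : (0 : Fin 2) ≠ 1 := by decide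
    by_cases hA : (w 0) ^ 2 ∈ Subgroup.zpowers (w 1)
    · by_cases hB : (w 1) ^ 2 ∈ Subgroup.zpowers (w 0)
      · left
        refine ⟨w 0, hwV 0, w 1, hwV 1, ?_, hpq 0 1 h01, hpq 1 0 h01.symm, hA, hB⟩
        have : Set.range w = {w 0, w 1} := by
          ext x
          constructor
          · rintro ⟨i, rfl⟩
            have hi : i = 0 ∨ i = 1 := by
              rcases i with ⟨i, hi⟩
              rcases i with _ | i
              · left; rfl
              · right
                have : i = 0 := by omega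
                subst this
                rfl
            rcases hi with hi | hi
            · rw [hi]; left; rfl
            · rw [hi]; right; rfl
          · rintro (rfl | rfl)
            · exact ⟨0, rfl⟩
            · exact ⟨1, rfl⟩
        rw [this] at hw
        exact hw
      · right
        apply hend
        exact start_two hC hQ (hIw 1) (hIw 0) (hpq' 1 0 h01.symm) (hpq' 0 1 h01) (fun a => hT 1 0 h01.symm a) hB
    · right
      apply hend
      exact start_two hC hQ (hIw 0) (hIw 1) (hpq' 0 1 h01) (hpq' 1 0 h01.symm) (fun a => hT 0 1 h01 a) hA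
  · right
    apply hend
    have h01 : (0 : Fin (m + 3)) ≠ 1 := by
      intro h; have := congrArg Fin.val h; simp at this
    have h02 : (0 : Fin (m + 3)) ≠ 2 := by
      intro h
      have h' : (0 : ℕ) = 2 % (m + 3) := congrArg Fin.val h
      rw [Nat.mod_eq_of_lt (by omega)] at h'
      omega
    have h12 : (1 : Fin (m + 3)) ≠ 2 := by
      intro h
      have h' : (1 : ℕ) % (m + 3) = 2 % (m + 3) := congrArg Fin.val h
      rw [Nat.mod_eq_of_lt (by omega), Nat.mod_eq_of_lt (by omega)] at h'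
      omega
    have t1 := hT 0 2 h02 1
    have t2 := hT 1 2 h12 1
    rw [one_mul, one_mul] at t1 t2
    have n1 : (w 0)⁻¹ * w 1 ∉ I := by
      intro hh
      apply hpq' 1 0 h01.symm
      have h3 := (Subgroup.zpowers (w 0)).mul_mem (Subgroup.mem_zpowers (w 0)) (hIw 0 hh)
      have e : w 0 * ((w 0)⁻¹ * w 1) = w 1 := by group
      rw [e] at h3
      exact h3
    have := hQ H V _ I 1 (w 0) (w 1) (w 2) t1 t2 n1
    refine ⟨{1, w 0, w 1, w 2}, full_mono (by omega) this, ?_⟩
    obtain ⟨f, hf, -⟩ := t1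
    obtain ⟨g, hg, -⟩ := t2
    exact card_four (ne_of_notMem hf.ab) (ne_of_notMem hg.ab) (ne_of_notMem hf.ca).symm (ne_of_notMem n1)
      (ne_of_notMem hf.bc) (ne_of_notMem hg.bc)

end Pool.Agent.Lib.MP_688fd0_co.SQ6.H39
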